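import Mathlib

set_option autoImplicit false

namespace Pool.Agent.Helper256.Purdy34

open Module

abbrev E3 := EuclideanSpace ℝ (Fin 3)

/-- Points of the line `L`. -/
noncomputable def x (i : ℕ) : E3 := !₂[(i : ℝ) + 1, 0, 0]

/-- Points of the line `M`. -/
noncomputable def w (j : ℕ) : E3 := !₂[0, (j : ℝ) + 1, 1]

/-- The extra point. -/
noncomputable def y : E3 := !₂[0, 2, 2]

noncomputable def u (j : ℕ) : E3 := if j < 3 then w j else y

noncomputable def X (n : ℕ) : Finset E3 := (Finset.range n).image x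

noncomputable def U : Finset E3 := (Finset.range 4).image u

noncomputable def S (n : ℕ) : Finset E3 := X n ∪ U

@[simp] lemma x0 (i : ℕ) : (x i) 0 = (i : ℝ) + 1 := rfl
@[simp] lemma x1 (i : ℕ) : (x i) 1 = 0 := rfl
@[simp] lemma x2 (i : ℕ) : (x i) 2 = 0 := rfl
@[simp] lemma w0 (i : ℕ) : (w i) 0 = 0 := rfl
@[simp] lemma w1 (i : ℕ) : (w i) 1 = (i : ℝ) + 1 := rfl
@[simp] lemma w2 (i : ℕ) : (w i) 2 = 1 := rfl
@[simp] lemma y0 : y 0 = 0 := rfl
@[simp] lemma y1 : y 1 = 2 := rfl
@[simp] lemma y2 : y 2 = 2 := rfl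

lemma minor {a b c : E3} (h : Collinear ℝ ({a, b, c} : Set E3)) (i j : Fin 3) :
    (b i - a i) * (c j - a j) = (b j - a j) * (c i - a i) := by
  rw [collinear_iff_of_mem (p₀ := a) (by simp)] at h
  obtain ⟨v, hv⟩ := h
  obtain ⟨r, hr⟩ := hv b (by simp)
  obtain ⟨s, hs⟩ := hv c (by simp)
  rw [hr, hs]
  simp
  ring

lemma ext3 {a b : E3} (h0 : a 0 = b 0) (h1 : a 1 = b 1) (h2 : a 2 = b 2) : a = b := by
  ext i
  fin_cases i
  · exact h0
  · exact h1
  · exact h2

lemma x_inj : Function.Injective x := by
  intro i j h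
  have := congrArg (fun v : E3 => v 0) h
  simp at this
  exact this

lemma w_inj : Function.Injective w := by
  intro i j h
  have := congrArg (fun v : E3 => v 1) h
  simp at this
  exact this

lemma u_cases (j : ℕ) : (j < 3 ∧ u j = w j) ∨ (3 ≤ j ∧ u j = y) := by
  unfold u
  split_ifs with h
  · left; exact ⟨h, rfl⟩
  · right; exact ⟨by omega, rfl⟩

/-- `x i`, `x i'`, `u j` are not collinear -/
lemma xxu {i i' j : ℕ} (h : i ≠ i') : ¬ Collinear ℝ ({x i, x i', u j} : Set E3) := by
  intro hc
  have h1 := minor hc 0 2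
  have h2 : ((i' : ℝ) - i) ≠ 0 := by
    intro h3
    apply h
    have : (i' : ℝ) = i := by linarith
    exact_mod_cast this.symm
  rcases u_cases j with ⟨_, hu⟩ | ⟨_, hu⟩ <;> rw [hu] at h1 <;> simp at h1
  · apply h2; linarith
  · apply h2; linarith

lemma xww {i j k : ℕ} (h : j ≠ k) : ¬ Collinear ℝ ({x i, w j, w k} : Set E3) := by
  intro hc
  have h1 := minor hc 1 2
  simp at h1
  exact h (by exact_mod_cast h1)

lemma xwy {i j : ℕ} : ¬ Collinear ℝ ({x i, w j, y} : Set E3) := by
  intro hc
  have h1 := minor hc 0 2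
  simp at h1
  have : (i : ℝ) ≥ 0 := Nat.cast_nonneg i
  linarith

lemma wwy {j k : ℕ} (h : j ≠ k) : ¬ Collinear ℝ ({w j, w k, y} : Set E3) := by
  intro hc
  have h1 := minor hc 1 2
  simp at h1
  rcases h1 with h1 | h1
  · apply h
    have : (k : ℝ) = j := by linarith
    exact_mod_cast this.symm
  · norm_num at h1

lemma xuu {i j k : ℕ} (hj : j < 4) (hk : k < 4) (h : j ≠ k) :
    ¬ Collinear ℝ ({x i, u j, u k} : Set E3) := by
  rcases u_cases j with ⟨h1, hu⟩ | ⟨h1, hu⟩ <;> rcases u_cases k with ⟨h2, hv⟩ | ⟨h2, hv⟩ <;>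
    rw [hu, hv]
  · exact xww h
  · exact xwy
  · intro hc
    apply xwy (i := i) (j := k)
    have : ({x i, w k, y} : Set E3) = {x i, y, w k} := by
      rw [Set.pair_comm]
    rw [this]; exact hc
  · omega

/-- The lines `x i`, `u j`. -/
noncomputable def line (p : ℕ × ℕ) : AffineSubspace ℝ E3 := affineSpan ℝ {x p.1, u p.2}

lemma line_inj (n : ℕ) : Set.InjOn line ((Finset.range n ×ˢ Finset.range 4 : Finset (ℕ × ℕ)) : Set (ℕ × ℕ)) := by
  rintro ⟨i, j⟩ h1 ⟨i', j'⟩ h2 h
  simp only [Finset.coe_product, Finset.coe_range, Set.mem_prod, Set.mem_Iio] at h1 h2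
  have hx : x i' ∈ line (i, j) := by
    rw [h]; exact left_mem_affineSpan_pair ℝ _ _
  have hu : u j' ∈ line (i, j) := by
    rw [h]; exact right_mem_affineSpan_pair ℝ _ _
  have hi : i = i' := by
    by_contra hne
    have := collinear_insert_of_mem_affineSpan_pair hx
    refine xxu (Ne.symm hne) (j := j) this
  have hj : j = j' := by
    by_contra hne
    have := collinear_insert_of_mem_affineSpan_pair hu
    refine xuu (i := i) h1.2 h2.2 hne ?_
    have e : ({x i, u j, u j'} : Set E3) = {u j', x i, u j} := by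
      ext v; simp; tauto
    rw [e]; exact this
  rw [hi, hj]

/-- Affine span of three points in a plane. -/
lemma plane_eq {P : AffineSubspace ℝ E3} (hP : finrank ℝ P.direction = 2) {a b c : E3}
    (ha : a ∈ P) (hb : b ∈ P) (hc : c ∈ P) (h : ¬ Collinear ℝ ({a, b, c} : Set E3)) :
    affineSpan ℝ {a, b, c} = P := by
  have hi : AffineIndependent ℝ ![a, b, c] := affineIndependent_iff_not_collinear_set.2 h
  have hr : Set.range ![a, b, c] = {a, b, c} := by
    ext v
    simp [eq_comm]
    tauto
  have hle : affineSpan ℝ (Set.range ![a, b, c]) ≤ P := by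
    rw [hr, affineSpan_le]
    rintro v (rfl | rfl | rfl) <;> assumption
  have := hi.affineSpan_eq_of_le_of_card_eq_finrank_add_one hle (by simp [hP])
  rw [hr] at this
  exact this

lemma finrank_le_one_of_collinear {T : Set E3} (h : Collinear ℝ T) :
    finrank ℝ (affineSpan ℝ T).direction ≤ 1 := by
  rw [direction_affineSpan]
  exact collinear_iff_finrank_le_one.1 h

lemma collinear_X (n : ℕ) : Collinear ℝ (X n : Set E3) := by
  rw [collinear_iff_exists_forall_eq_smul_vadd]
  refine ⟨x 0, !₂[1, 0, 0], ?_⟩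
  intro p hp
  simp only [X, Finset.coe_image, Finset.coe_range, Set.mem_image] at hp
  obtain ⟨i, _, rfl⟩ := hp
  refine ⟨i, ?_⟩
  apply ext3 <;> simp

/-- a plane through two points of `L` contains all of them -/
lemma mem_of_two {P : AffineSubspace ℝ E3} {i i' : ℕ} (h : i ≠ i') (hi : x i ∈ P) (hi' : x i' ∈ P)
    (k : ℕ) : x k ∈ P := by
  have h2 : ((i' : ℝ) - i) ≠ 0 := by
    intro h3
    apply h
    have : (i' : ℝ) = i := by linarith
    exact_mod_cast this.symm
  have e : x k = AffineMap.lineMap (x i) (x i') (((k : ℝ) - i) / ((i' : ℝ) - i)) := by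
    apply ext3
    · simp [AffineMap.lineMap_apply]
      field_simp
      ring
    · simp [AffineMap.lineMap_apply]
    · simp [AffineMap.lineMap_apply]
  rw [e]
  exact AffineMap.lineMap_mem _ hi hi'

lemma wmem_of_two {P : AffineSubspace ℝ E3} {i i' : ℕ} (h : i ≠ i') (hi : w i ∈ P) (hi' : w i' ∈ P)
    (k : ℕ) : w k ∈ P := by
  have h2 : ((i' : ℝ) - i) ≠ 0 := by
    intro h3
    apply h
    have : (i' : ℝ) = i := by linarith
    exact_mod_cast this.symm
  have e : w k = AffineMap.lineMap (w i) (w i') (((k : ℝ) - i) / ((i' : ℝ) - i)) := by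
    apply ext3
    · simp [AffineMap.lineMap_apply]
    · simp [AffineMap.lineMap_apply]
      field_simp
      ring
    · simp [AffineMap.lineMap_apply]
  rw [e]
  exact AffineMap.lineMap_mem _ hi hi'

/-- a plane through `x i`, `w 0`, `y` contains all of `L` -/
lemma mem_of_xwy {P : AffineSubspace ℝ E3} {i : ℕ} (hi : x i ∈ P) (hw : w 0 ∈ P) (hy : y ∈ P)
    (k : ℕ) : x k ∈ P := by
  have ho : (0 : E3) ∈ P := by
    have e : (0 : E3) = AffineMap.lineMap y (w 0) (2 : ℝ) := by
      apply ext3
      · simp [AffineMap.lineMap_apply]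
      · simp [AffineMap.lineMap_apply]; norm_num
      · simp [AffineMap.lineMap_apply]; norm_num
    rw [e]
    exact AffineMap.lineMap_mem _ hy hw
  have h2 : ((i : ℝ) + 1) ≠ 0 := by positivity
  have e : x k = AffineMap.lineMap (0 : E3) (x i) (((k : ℝ) + 1) / ((i : ℝ) + 1)) := by
    apply ext3
    · simp [AffineMap.lineMap_apply]
      field_simp
    · simp [AffineMap.lineMap_apply]
    · simp [AffineMap.lineMap_apply]
  rw [e]
  exact AffineMap.lineMap_mem _ ho hi

/-- The set of planes spanned by `S`. -/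
def planes (T : Finset E3) : Set (AffineSubspace ℝ E3) :=
  {P | (∃ T' : Set E3, T' ⊆ (T : Set E3) ∧ affineSpan ℝ T' = P) ∧ finrank ℝ P.direction = 2}

open Classical in
noncomputable def F (n : ℕ) : Finset (AffineSubspace ℝ E3) :=
  ((Finset.range 4).image (fun j => affineSpan ℝ {x 0, x 1, u j})) ∪
  ((Finset.range n ×ˢ Finset.range 3).image (fun p => affineSpan ℝ {x p.1, w p.2, if p.2 = 0 then w 1 else y})) ∪
  (U.powerset.image (fun T : Finset E3 => affineSpan ℝ (T : Set E3)))

lemma card_F (n : ℕ) : (F n).card ≤ 3 * n + 20 := by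
  classical
  unfold F
  have h1 := Finset.card_union_le (((Finset.range 4).image (fun j => affineSpan ℝ {x 0, x 1, u j})) ∪
    ((Finset.range n ×ˢ Finset.range 3).image (fun p => affineSpan ℝ {x p.1, w p.2, if p.2 = 0 then w 1 else y}))) (U.powerset.image (fun T : Finset E3 => affineSpan ℝ (T : Set E3)))
  have h2 := Finset.card_union_le ((Finset.range 4).image (fun j => affineSpan ℝ {x 0, x 1, u j}))
    ((Finset.range n ×ˢ Finset.range 3).image (fun p => affineSpan ℝ {x p.1, w p.2, if p.2 = 0 then w 1 else y}))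
  have h3 : ((Finset.range 4).image (fun j => affineSpan ℝ ({x 0, x 1, u j} : Set E3))).card ≤ 4 := by
    refine Finset.card_image_le.trans ?_
    simp
  have h4 : ((Finset.range n ×ˢ Finset.range 3).image (fun p => affineSpan ℝ ({x p.1, w p.2, if p.2 = 0 then w 1 else y} : Set E3))).card ≤ n * 3 := by
    refine Finset.card_image_le.trans ?_
    simp
  have h5 : (U.powerset.image (fun T : Finset E3 => affineSpan ℝ (T : Set E3))).card ≤ 16 := by
    refine Finset.card_image_le.trans ?_
    rw [Finset.card_powerset]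
    have : U.card ≤ 4 := by
      unfold U
      refine Finset.card_image_le.trans ?_
      simp
    calc 2 ^ U.card ≤ 2 ^ 4 := Nat.pow_le_pow_right (by norm_num) this
      _ = 16 := by norm_num
  omega

lemma mem_S {n : ℕ} {p : E3} (h : p ∈ S n) : (∃ i, i < n ∧ p = x i) ∨ (∃ j, j < 4 ∧ p = u j) := by
  classical
  unfold S X U at h
  simp only [Finset.mem_union, Finset.mem_image, Finset.mem_range] at h
  rcases h with ⟨i, hi, rfl⟩ | ⟨j, hj, rfl⟩
  · left; exact ⟨i, hi, rfl⟩
  · right; exact ⟨j, hj, rfl⟩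

lemma planes_subset (n : ℕ) : planes (S n) ⊆ (F n : Set (AffineSubspace ℝ E3)) := by
  classical
  rintro P ⟨⟨T, hT, rfl⟩, hP⟩
  have hTP : ∀ p ∈ T, p ∈ affineSpan ℝ T := fun p hp => subset_affineSpan ℝ T hp
  have hnc : ¬ Collinear ℝ T := by
    intro hc
    have := finrank_le_one_of_collinear hc
    omega
  simp only [F, Finset.coe_union, Finset.coe_image, Set.mem_union, Set.mem_image, Finset.mem_coe,
    Finset.coe_range, Set.mem_Iio, Finset.mem_powerset, Finset.mem_range, Finset.mem_product]
  by_cases hA : ∃ i i', i ≠ i' ∧ x i ∈ affineSpan ℝ T ∧ x i' ∈ affineSpan ℝ T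
  · -- contains the line L
    obtain ⟨i, i', hne, hi, hi'⟩ := hA
    left; left
    have : ∃ j, j < 4 ∧ u j ∈ T := by
      by_contra hcon
      push Not at hcon
      apply hnc
      apply (collinear_X n).subset
      intro p hp
      rcases mem_S (hT hp) with ⟨k, hk, rfl⟩ | ⟨j, hj, rfl⟩
      · simp only [X, Finset.coe_image, Finset.coe_range, Set.mem_image, Set.mem_Iio]
        exact ⟨k, hk, rfl⟩
      · exact absurd hp (hcon j hj)
    obtain ⟨j, hj, hjT⟩ := this
    exact ⟨j, hj, plane_eq hP (mem_of_two hne hi hi' 0) (mem_of_two hne hi hi' 1) (hTP _ hjT)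
      (xxu (by norm_num))⟩
  · push Not at hA
    by_cases hB : ∃ i, i < n ∧ x i ∈ T
    · obtain ⟨i, hi, hiT⟩ := hB
      left; right
      have hiP := hTP _ hiT
      -- two distinct `u`s in `T`
      have h2 : ∃ j k, j < 4 ∧ k < 4 ∧ j ≠ k ∧ u j ∈ T ∧ u k ∈ T := by
        by_contra hcon
        push Not at hcon
        by_cases h1 : ∃ j, j < 4 ∧ u j ∈ T
        · obtain ⟨j, hj, hjT⟩ := h1
          apply hnc
          apply (collinear_pair ℝ (x i) (u j)).subset
          intro p hp
          rcases mem_S (hT hp) with ⟨k, hk, rfl⟩ | ⟨k, hk, rfl⟩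
          · by_cases hki : i = k
            · left; rw [hki]
            · exact absurd (hTP _ hp) (hA i k hki hiP)
          · by_cases hkj : j = k
            · right; rw [hkj]; rfl
            · exact absurd hp (hcon j k hj hk hkj hjT)
        · push Not at h1
          apply hnc
          apply (collinear_singleton ℝ (x i)).subset
          intro p hp
          rcases mem_S (hT hp) with ⟨k, hk, rfl⟩ | ⟨k, hk, rfl⟩
          · by_cases hki : i = k
            · rw [hki]; rfl
            · exact absurd (hTP _ hp) (hA i k hki hiP)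
          · exact absurd hp (h1 k hk)
      have key : ∀ j k, j < 3 → k < 4 → j ≠ k → u j ∈ affineSpan ℝ T → u k ∈ affineSpan ℝ T →
          ∃ p : ℕ × ℕ, (p.1 < n ∧ p.2 < 3) ∧
            affineSpan ℝ {x p.1, w p.2, if p.2 = 0 then w 1 else y} = affineSpan ℝ T := by
        intro j k hj hk hjk hjT hkT
        have e1 : u j = w j := by unfold u; rw [if_pos hj]
        rw [e1] at hjT
        by_cases hk5 : k < 3
        · have e2 : u k = w k := by unfold u; rw [if_pos hk5]
          rw [e2] at hkT
          refine ⟨(i, 0), ⟨hi, by norm_num⟩, ?_⟩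
          simp only [if_true]
          exact plane_eq hP hiP (wmem_of_two hjk hjT hkT 0) (wmem_of_two hjk hjT hkT 1)
            (xww (by norm_num))
        · have e2 : u k = y := by unfold u; rw [if_neg hk5]
          rw [e2] at hkT
          by_cases hj0 : j = 0
          · subst hj0
            exfalso
            exact hA i (i + 1) (by omega) hiP (mem_of_xwy hiP hjT hkT (i + 1))
          · refine ⟨(i, j), ⟨hi, hj⟩, ?_⟩
            simp only [if_neg hj0]
            exact plane_eq hP hiP hjT hkT xwy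
      obtain ⟨j, k, hj, hk, hjk, hjT, hkT⟩ := h2
      by_cases hj5 : j < 3
      · exact key j k hj5 hk hjk (hTP _ hjT) (hTP _ hkT)
      · exact key k j (by omega) hj (Ne.symm hjk) (hTP _ hkT) (hTP _ hjT)
    · push Not at hB
      right
      have hTU : T ⊆ (U : Set E3) := by
        intro p hp
        rcases mem_S (hT hp) with ⟨k, hk, rfl⟩ | ⟨k, hk, rfl⟩
        · exact absurd hp (hB k hk)
        · simp only [U, Finset.coe_image, Finset.coe_range, Set.mem_image, Set.mem_Iio]
          exact ⟨k, hk, rfl⟩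
      have hfin : T.Finite := U.finite_toSet.subset hTU
      refine ⟨hfin.toFinset, ?_, ?_⟩
      · intro p hp
        rw [Set.Finite.mem_toFinset] at hp
        exact hTU hp
      · rw [Set.Finite.coe_toFinset]

lemma ncard_planes (n : ℕ) : (planes (S n)).ncard ≤ 3 * n + 20 := by
  classical
  calc (planes (S n)).ncard ≤ ((F n : Set (AffineSubspace ℝ E3))).ncard :=
        Set.ncard_le_ncard (planes_subset n) (F n).finite_toSet
    _ = (F n).card := Set.ncard_coe_finset _
    _ ≤ 3 * n + 20 := card_F n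

/-- Any finite set of flats that contains all the lines has at least `4 n` elements. -/
lemma ncard_lines (n : ℕ) (A : Set (AffineSubspace ℝ E3)) (hA : A.Finite)
    (h : ∀ i j, i < n → j < 4 → line (i, j) ∈ A) : 4 * n ≤ A.ncard := by
  classical
  have h1 : (((Finset.range n ×ˢ Finset.range 4).image line : Finset (AffineSubspace ℝ E3)) :
      Set (AffineSubspace ℝ E3)) ⊆ A := by
    intro L hL
    simp only [Finset.coe_image, Set.mem_image, Finset.mem_coe, Finset.mem_product,
      Finset.mem_range] at hL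
    obtain ⟨⟨i, j⟩, ⟨hi, hj⟩, rfl⟩ := hL
    exact h i j hi hj
  have h2 := Set.ncard_le_ncard h1 hA
  rw [Set.ncard_coe_finset, Finset.card_image_of_injOn (line_inj n), Finset.card_product,
    Finset.card_range, Finset.card_range] at h2
  omega

lemma two_le_of_not_collinear {P : AffineSubspace ℝ E3} {a b c : E3}
    (ha : a ∈ P) (hb : b ∈ P) (hc : c ∈ P) (h : ¬ Collinear ℝ ({a, b, c} : Set E3)) :
    2 ≤ finrank ℝ P.direction := by
  by_contra hlt
  apply h
  rw [collinear_iff_finrank_le_one]
  have h1 : vectorSpan ℝ ({a, b, c} : Set E3) ≤ P.direction := by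
    rw [← direction_affineSpan]
    apply AffineSubspace.direction_le
    rw [affineSpan_le]
    rintro v (rfl | rfl | rfl) <;> assumption
  have h2 := Submodule.finrank_mono h1
  omega

lemma one_le_of_ne {P : AffineSubspace ℝ E3} {a b : E3}
    (ha : a ∈ P) (hb : b ∈ P) (h : a ≠ b) :
    1 ≤ finrank ℝ P.direction := by
  by_contra hlt
  have h0 : finrank ℝ P.direction = 0 := by omega
  rw [Submodule.finrank_eq_zero] at h0
  have h1 : a -ᵥ b ∈ P.direction := AffineSubspace.vsub_mem_direction ha hb
  rw [h0, Submodule.mem_bot, vsub_eq_zero_iff_eq] at h1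
  exact h h1

lemma three_le {P : AffineSubspace ℝ E3} (h1 : x 0 ∈ P) (h2 : x 1 ∈ P) (h3 : w 0 ∈ P)
    (h4 : w 1 ∈ P) : 3 ≤ finrank ℝ P.direction := by
  have htop : P.direction = ⊤ := by
    rw [Submodule.eq_top_iff']
    intro v
    have a1 := AffineSubspace.vsub_mem_direction h2 h1
    have a2 := AffineSubspace.vsub_mem_direction h4 h3
    have a3 := AffineSubspace.vsub_mem_direction h3 h1
    have e : v = (v 0 + v 2) • (x 1 -ᵥ x 0) + (v 1 - v 2) • (w 1 -ᵥ w 0)
        + (v 2) • (w 0 -ᵥ x 0) := by
      apply ext3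
      · simp
      · simp
      · simp
    rw [e]
    exact Submodule.add_mem _ (Submodule.add_mem _ (Submodule.smul_mem _ _ a1)
      (Submodule.smul_mem _ _ a2)) (Submodule.smul_mem _ _ a3)
  rw [htop, finrank_top]
  simp

/-- The configuration is irreducible. -/
lemma irred (n : ℕ) (hn : 5 ≤ n) :
    ¬ ∃ r : ℕ, 2 ≤ r ∧ ∃ F : Fin r → AffineSubspace ℝ E3,
      (∀ i, ((F i : Set E3)).Nonempty) ∧
      ((S n : Set E3) ⊆ ⋃ i, ((F i : Set E3))) ∧
      (∑ i, (finrank ℝ (F i).direction + 1)) ≤ 4 := by
  classical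
  rintro ⟨r, hr, F, _, hcov, hsum⟩
  have hr4 : r ≤ 4 := by
    have : ∑ i : Fin r, 1 ≤ ∑ i, (finrank ℝ (F i).direction + 1) :=
      Finset.sum_le_sum (fun i _ => by omega)
    rw [Finset.sum_const, Finset.card_univ, Fintype.card_fin, smul_eq_mul, mul_one] at this
    omega
  have hx : ∀ i : Fin 5, ∃ a : Fin r, x i ∈ F a := by
    intro i
    have : x i ∈ (S n : Set E3) := by
      simp only [S, X, Finset.coe_union, Finset.coe_image, Finset.coe_range, Set.mem_union,
        Set.mem_image, Set.mem_Iio]
      left; exact ⟨i, by omega, rfl⟩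
    simpa using hcov this
  have hw : ∀ i : Fin 3, ∃ a : Fin r, w i ∈ F a := by
    intro i
    have : w i ∈ (S n : Set E3) := by
      simp only [S, U, Finset.coe_union, Finset.coe_image, Finset.coe_range, Set.mem_union,
        Set.mem_image, Set.mem_Iio]
      right; exact ⟨i, by omega, by unfold u; rw [if_pos (by omega)]⟩
    simpa using hcov this
  have hy : ∃ a : Fin r, y ∈ F a := by
    have : y ∈ (S n : Set E3) := by
      simp only [S, U, Finset.coe_union, Finset.coe_image, Finset.coe_range, Set.mem_union,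
        Set.mem_image, Set.mem_Iio]
      right; exact ⟨3, by omega, by unfold u; rw [if_neg (by omega)]⟩
    simpa using hcov this
  choose f hf using hx
  choose g hg using hw
  obtain ⟨c, hc⟩ := hy
  obtain ⟨i, i', hii, hfi⟩ := Fintype.exists_ne_map_eq_of_card_lt f (by simp; omega)
  have hii2 : (i : ℕ) ≠ i' := fun h => hii (Fin.ext h)
  have hxa : ∀ k, x k ∈ F (f i) := mem_of_two hii2 (hf i) (by rw [hfi]; exact hf i')
  set a := f i
  have hle : ∀ s : Finset (Fin r), ∑ i ∈ s, (finrank ℝ (F i).direction + 1) ≤ 4 := fun s =>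
    (Finset.sum_le_sum_of_subset (Finset.subset_univ s)).trans hsum
  have ha1 := one_le_of_ne (hxa 0) (hxa 1) (fun h => by simpa using x_inj h)
  have haw : ∀ j : Fin 3, g j = a → 2 ≤ finrank ℝ (F a).direction := by
    intro j hj
    have h1 := hg j
    rw [hj] at h1
    refine two_le_of_not_collinear (hxa 0) (hxa 1) h1 ?_
    have := xxu (i := 0) (i' := 1) (j := (j : ℕ)) (by norm_num)
    unfold u at this
    rw [if_pos (by omega)] at this
    exact this
  have hay : c = a → 2 ≤ finrank ℝ (F a).direction := by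
    intro hca
    have h1 := hc
    rw [hca] at h1
    refine two_le_of_not_collinear (hxa 0) (hxa 1) h1 ?_
    have := xxu (i := 0) (i' := 1) (j := 3) (by norm_num)
    unfold u at this
    rw [if_neg (by norm_num)] at this
    exact this
  have hww : ∀ j k : Fin 3, j ≠ k → g j = a → g k = a → False := by
    intro j k hjk hj hk
    have hjk2 : (j : ℕ) ≠ k := fun h => hjk (Fin.ext h)
    have hwa : ∀ l, w l ∈ F a := wmem_of_two hjk2 (by rw [← hj]; exact hg j) (by rw [← hk]; exact hg k)
    have h3 := three_le (hxa 0) (hxa 1) (hwa 0) (hwa 1)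
    obtain ⟨d, hd⟩ : ∃ d : Fin r, d ≠ a := by
      have : Nontrivial (Fin r) := Fin.nontrivial_iff_two_le.2 hr
      exact exists_ne a
    have := hle {d, a}
    rw [Finset.sum_pair hd] at this
    omega
  have hA : ∀ j k l : Fin 3, j ≠ k → l ≠ j → l ≠ k → g j ≠ a → g k ≠ a → False := by
    intro j k l hjk hlj hlk hj hk
    have hjk2 : (j : ℕ) ≠ k := fun h => hjk (Fin.ext h)
    by_cases hgg : g j = g k
    · have hwb : ∀ l, w l ∈ F (g j) := wmem_of_two hjk2 (hg j) (by rw [hgg]; exact hg k)
      have hb1 := one_le_of_ne (hwb 0) (hwb 1) (fun h => by simpa using w_inj h)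
      by_cases hca : c = a
      · have h2 := hay hca
        have h := hle {g j, a}
        rw [Finset.sum_pair hj] at h
        omega
      · by_cases hcb : c = g j
        · rw [hcb] at hc
          have h2 := two_le_of_not_collinear (hwb 0) (hwb 1) hc (wwy (by norm_num))
          have h := hle {g j, a}
          rw [Finset.sum_pair hj] at h
          omega
        · have h := hle {c, g j, a}
          rw [Finset.sum_insert (by simp [hca, hcb]), Finset.sum_pair hj] at h
          omega
    · by_cases hla : g l = a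
      · have h2 := haw l hla
        have h := hle {g j, g k, a}
        rw [Finset.sum_insert (by simp [hgg, hj]), Finset.sum_pair hk] at h
        omega
      · by_cases hlj2 : g l = g j
        · have h2 := one_le_of_ne (hg j) (by rw [← hlj2]; exact hg l)
            (fun h => hlj (Fin.ext (w_inj h).symm))
          have h := hle {g j, g k, a}
          rw [Finset.sum_insert (by simp [hgg, hj]), Finset.sum_pair hk] at h
          omega
        · by_cases hlk2 : g l = g k
          · have h2 := one_le_of_ne (hg k) (by rw [← hlk2]; exact hg l)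
              (fun h => hlk (Fin.ext (w_inj h).symm))
            have h := hle {g j, g k, a}
            rw [Finset.sum_insert (by simp [hgg, hj]), Finset.sum_pair hk] at h
            omega
          · have h := hle {g l, g j, g k, a}
            rw [Finset.sum_insert (by simp [hla, hlj2, hlk2]),
              Finset.sum_insert (by simp [hgg, hj]), Finset.sum_pair hk] at h
            omega
  by_cases h0 : g 0 = a
  · by_cases h1 : g 1 = a
    · exact hww 0 1 (by decide) h0 h1
    · by_cases h2 : g 2 = a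
      · exact hww 0 2 (by decide) h0 h2
      · exact hA 1 2 0 (by decide) (by decide) (by decide) h1 h2
  · by_cases h1 : g 1 = a
    · by_cases h2 : g 2 = a
      · exact hww 1 2 (by decide) h1 h2
      · exact hA 0 2 1 (by decide) (by decide) (by decide) h0 h2
    · exact hA 0 1 2 (by decide) (by decide) (by decide) h0 h1

lemma u_inj {j k : ℕ} (hj : j < 4) (hk : k < 4) (h : u j = u k) : j = k := by
  by_contra hne
  apply xuu (i := 0) hj hk hne
  rw [h]
  have : ({x 0, u k, u k} : Set E3) = {x 0, u k} := by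
    ext v; simp
  rw [this]
  exact collinear_pair ℝ _ _

lemma x_ne_u' (i j : ℕ) : x i ≠ u j := by
  intro h
  apply xxu (i := i) (i' := i + 1) (j := j) (by omega)
  rw [← h]
  have : ({x i, x (i + 1), x i} : Set E3) = {x i, x (i + 1)} := by
    ext v; simp; tauto
  rw [this]
  exact collinear_pair ℝ _ _

lemma card_S_eq (n : ℕ) : (S n).card = n + 4 := by
  classical
  unfold S
  rw [Finset.card_union_of_disjoint]
  · unfold X U
    rw [Finset.card_image_of_injective _ x_inj, Finset.card_range, Finset.card_image_of_injOn,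
      Finset.card_range]
    intro j hj k hk h
    exact u_inj (Finset.mem_range.1 (Finset.mem_coe.1 hj)) (Finset.mem_range.1 (Finset.mem_coe.1 hk)) h
  · rw [Finset.disjoint_left]
    intro p hp hq
    simp only [X, U, Finset.mem_image, Finset.mem_range] at hp hq
    obtain ⟨i, _, rfl⟩ := hp
    obtain ⟨j, _, h⟩ := hq
    exact x_ne_u' i j h.symm

lemma card_S (n : ℕ) : n ≤ (S n).card := by
  classical
  calc n = (X n).card := by
        unfold X; rw [Finset.card_image_of_injective _ x_inj, Finset.card_range]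
    _ ≤ (S n).card := Finset.card_le_card Finset.subset_union_left

lemma x_mem {n i : ℕ} (hi : i < n) : x i ∈ S n := by
  classical
  unfold S X
  rw [Finset.mem_union, Finset.mem_image]
  left; exact ⟨i, Finset.mem_range.2 hi, rfl⟩

lemma u_mem {n j : ℕ} (hj : j < 4) : u j ∈ S n := by
  classical
  unfold S U
  rw [Finset.mem_union]
  right
  exact Finset.mem_image_of_mem u (Finset.mem_range.2 hj)

lemma x_ne_u (i j : ℕ) : x i ≠ u j := by
  intro h
  apply xxu (i := i) (i' := i + 1) (j := j) (by omega)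
  rw [← h]
  have : ({x i, x (i + 1), x i} : Set E3) = {x i, x (i + 1)} := by
    ext v; simp; tauto
  rw [this]
  exact collinear_pair ℝ _ _

lemma finrank_line (i j : ℕ) : finrank ℝ (line (i, j)).direction = 1 := by
  have h5 := finrank_le_one_of_collinear (collinear_pair ℝ (x i) (u j))
  have h6 := one_le_of_ne (P := affineSpan ℝ {x i, u j}) (left_mem_affineSpan_pair ℝ _ _)
    (right_mem_affineSpan_pair ℝ _ _) (x_ne_u i j)
  exact le_antisymm h5 h6

lemma finrank_plane {a b c : E3} (hnc : ¬ Collinear ℝ ({a, b, c} : Set E3)) :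
    finrank ℝ (affineSpan ℝ ({a, b, c} : Set E3)).direction = 2 := by
  have hi : AffineIndependent ℝ ![a, b, c] := affineIndependent_iff_not_collinear_set.2 hnc
  have hr : Set.range ![a, b, c] = {a, b, c} := by
    ext v
    simp [eq_comm]
    tauto
  have := hi.finrank_vectorSpan (n := 2) (by simp)
  rw [hr] at this
  rw [direction_affineSpan]
  exact this

lemma two (n : ℕ) (hn : 5 ≤ n) (A B : AffineSubspace ℝ E3) (hA : (A : Set E3).Nonempty)
    (hB : (B : Set E3).Nonempty) (hAB : (S n : Set E3) ⊆ (A : Set E3) ∪ B)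
    (hle : finrank ℝ A.direction + finrank ℝ B.direction ≤ 2) : False := by
  apply irred n hn
  refine ⟨2, le_rfl, ![A, B], ?_, ?_, ?_⟩
  · intro i
    fin_cases i
    · exact hA
    · exact hB
  · intro p hp
    rcases hAB hp with h | h
    · exact Set.mem_iUnion.2 ⟨0, h⟩
    · exact Set.mem_iUnion.2 ⟨1, h⟩
  · rw [Fin.sum_univ_two]
    change finrank ℝ A.direction + 1 + (finrank ℝ B.direction + 1) ≤ 4
    omega

lemma not_coplanar (n : ℕ) (hn : 5 ≤ n) : ¬ Coplanar ℝ (S n : Set E3) := by
  intro hcp
  refine two n hn (affineSpan ℝ (S n : Set E3)) (affineSpan ℝ {x 0}) ?_ ?_ ?_ ?_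
  · exact ⟨x 0, subset_affineSpan ℝ _ (x_mem (by omega))⟩
  · exact ⟨x 0, subset_affineSpan ℝ _ rfl⟩
  · intro p hp
    left; exact subset_affineSpan ℝ _ hp
  · have h1 : finrank ℝ (affineSpan ℝ (S n : Set E3)).direction ≤ 2 := by
      rw [direction_affineSpan]
      exact coplanar_iff_finrank_le_two.1 hcp
    have h2 : finrank ℝ (affineSpan ℝ ({x 0} : Set E3)).direction = 0 := by
      rw [direction_affineSpan, vectorSpan_singleton]
      exact finrank_bot ℝ E3
    rw [h2]
    exact h1

lemma not_two_lines (n : ℕ) (hn : 5 ≤ n) (a b c d : E3)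
    (h : (S n : Set E3) ⊆ (affineSpan ℝ ({a, b} : Set E3) : Set E3) ∪
      (affineSpan ℝ ({c, d} : Set E3) : Set E3)) : False := by
  refine two n hn (affineSpan ℝ {a, b}) (affineSpan ℝ {c, d}) ?_ ?_ h ?_
  · exact ⟨a, left_mem_affineSpan_pair ℝ _ _⟩
  · exact ⟨c, left_mem_affineSpan_pair ℝ _ _⟩
  · exact Nat.add_le_add (finrank_le_one_of_collinear (collinear_pair ℝ a b))
      (finrank_le_one_of_collinear (collinear_pair ℝ c d))

lemma not_coplanar_of_subset (n : ℕ) (hn : 5 ≤ n) (p : E3) (T : Set E3) (hT : T.Nonempty)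
    (hS : (S n : Set E3) ⊆ insert p T) (hcp : Coplanar ℝ T) : False := by
  refine two n hn (affineSpan ℝ T) (affineSpan ℝ {p}) ?_ ?_ ?_ ?_
  · obtain ⟨q, hq⟩ := hT
    exact ⟨q, subset_affineSpan ℝ _ hq⟩
  · exact ⟨p, subset_affineSpan ℝ _ rfl⟩
  · intro v hv
    rcases hS hv with rfl | h
    · right; exact subset_affineSpan ℝ _ rfl
    · left; exact subset_affineSpan ℝ _ h
  · have h1 : finrank ℝ (affineSpan ℝ T).direction ≤ 2 := by
      rw [direction_affineSpan]
      exact coplanar_iff_finrank_le_two.1 hcp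
    have h2 : finrank ℝ (affineSpan ℝ ({p} : Set E3)).direction = 0 := by
      rw [direction_affineSpan, vectorSpan_singleton]
      exact finrank_bot ℝ E3
    rw [h2]
    exact h1

end Pool.Agent.Helper256.Purdy34
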